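import Pool.Agent.H47.MB.Defs
import Pool.Agent.H51.IR.Box

set_option linter.style.longLine false

/-! MB2, row T: near a centre of period `n` the map is renormalizable with period `n`, as soon as
the critical orbit of the `n`-th iterate stays in the box. -/

namespace Pool.Agent.H10.MB

open Finset Metric
open Pool.Agent.H51.IR Pool.Agent.H98.MB Pool.Agent.H47.MB

theorem isConnected_compl_ball {R : ℝ} (hR : 0 < R) : IsConnected (ball (0 : ℂ) R)ᶜ := by
  have h1 : (closedBall (0 : ℂ) R)ᶜ = {z : ℂ | R < ‖z‖} := by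
    ext z
    simp
  have h2 : (ball (0 : ℂ) R)ᶜ = closure ((closedBall (0 : ℂ) R)ᶜ) := by
    rw [closure_compl, interior_closedBall _ hR.ne']
  refine ⟨⟨(R : ℂ), ?_⟩, ?_⟩
  · simp [abs_of_pos hR]
  · rw [h2, h1]
    exact (isPreconnected_exterior hR.le).closure

theorem isRenorm_of_near {c c' : ℂ} {n : ℕ} (hc : Centre c n) (hn : 2 ≤ n)
    (hd : ‖A c n‖ * ‖Dp c n‖ * ‖c' - c‖ ≤ 2.5)
    (hret : ∀ m, ‖A c n‖ * ‖crit c' (m * n)‖ ≤ 2.5)
    (hnear : ∀ x, ‖A c n‖ * ‖x‖ ≤ 2.7 → Near c n c' x) : IsRenorm n c' := by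
  have hA : A c n ≠ 0 := by
    unfold A
    rw [Finset.prod_ne_zero_iff]
    intro i hi
    exact mul_ne_zero two_ne_zero (hc.ne i hi)
  have ha : 0 < ‖A c n‖ := norm_pos_iff.mpr hA
  set a := ‖A c n‖ with hadef
  have hr : 0 < 2.7 / a := by positivity
  have hR : 0 < 2.8 / a := by positivity
  have hmemL : ∀ z : ℂ, z ∈ closedBall (0 : ℂ) (2.7 / a) → a * ‖z‖ ≤ 2.7 := by
    intro z hz
    rw [mem_closedBall, dist_zero_right, le_div_iff₀ ha] at hz
    linarith
  refine isRenorm_of_box hn (L := closedBall 0 (2.7 / a)) (isCompact_closedBall _ _) ?_ ?_ ?_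
  · intro z hz
    simpa using hz
  · refine ⟨ball 0 (2.8 / a), isOpen_ball,
      ((convex_ball _ _).isConnected (nonempty_ball.mpr hR)), isConnected_compl_ball hR,
      isBounded_ball, ?_, ?_, ?_⟩
    · refine closedBall_subset_ball ?_
      gcongr
      norm_num
    · intro z hz hcl
      rw [frontier_closedBall _ hr.ne', mem_sphere, dist_zero_right] at hz
      have haz : a * ‖z‖ = 2.7 := by
        rw [hz]; field_simp
      have hN := (hnear z haz.le).value
      have hcl' := closure_ball_subset_closedBall hcl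
      rw [mem_closedBall, dist_zero_right, le_div_iff₀ ha] at hcl'
      have h1 : ‖A c n * z‖ = 2.7 := by rw [norm_mul, ← hadef, haz]
      have h2 : ‖A c n * Dp c n * (c' - c)‖ ≤ 2.5 := by
        rw [norm_mul, norm_mul]; exact hd
      have h3 : ‖(A c n * z) ^ 2‖ = 7.29 := by rw [norm_pow, h1]; norm_num
      have h4 : ‖A c n * (quad c')^[n] z‖ ≤ 2.8 := by
        rw [norm_mul, ← hadef]; linarith
      rw [h1] at hN
      have h5 : ‖(A c n * z) ^ 2‖ ≤ ‖A c n * (quad c')^[n] z‖
          + ‖A c n * (quad c')^[n] z - (A c n * Dp c n * (c' - c) + (A c n * z) ^ 2)‖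
          + ‖A c n * Dp c n * (c' - c)‖ := by
        calc ‖(A c n * z) ^ 2‖ = ‖A c n * (quad c')^[n] z
              - (A c n * (quad c')^[n] z - (A c n * Dp c n * (c' - c) + (A c n * z) ^ 2))
              - A c n * Dp c n * (c' - c)‖ := by congr 1; ring
          _ ≤ ‖A c n * (quad c')^[n] z
              - (A c n * (quad c')^[n] z - (A c n * Dp c n * (c' - c) + (A c n * z) ^ 2))‖
              + ‖A c n * Dp c n * (c' - c)‖ := norm_sub_le _ _
          _ ≤ _ := by
            gcongr
            exact norm_sub_le _ _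
      rw [h3] at h5
      norm_num at hN h5 h2 h4 ⊢
      linarith
    · rintro ⟨q1, q2⟩ hq j hj h0
      have hj' : j ∈ Ico 1 n := hj
      have h1 := (hnear q1 (hmemL q1 hq.1)).orbit j hj'
      have h2 := (hnear q2 (hmemL q2 hq.2)).orbit j hj'
      have h3 := norm_pos_iff.mpr (hc.ne j hj')
      have h0' : (quad c')^[j] q1 + (quad c')^[j] q2 = 0 := h0
      have h4 : ‖(2 : ℂ) * crit c j‖ ≤ ‖(quad c')^[j] q1 - crit c j‖ + ‖(quad c')^[j] q2 - crit c j‖ := by
        calc ‖(2 : ℂ) * crit c j‖ = ‖-(2 * crit c j)‖ := (norm_neg _).symm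
          _ = ‖((quad c')^[j] q1 - crit c j) + ((quad c')^[j] q2 - crit c j)‖ := by
            congr 1
            linear_combination -h0'
          _ ≤ _ := norm_add_le _ _
      rw [norm_mul, Complex.norm_ofNat] at h4
      norm_num at h1 h2 h4
      linarith
  · refine ⟨?_, ?_⟩
    · rw [interior_closedBall _ hr.ne']
      exact mem_ball_self hr
    · intro m _
      rw [interior_closedBall _ hr.ne', mem_ball, dist_zero_right, lt_div_iff₀ ha]
      have h1 := hret m
      have h2 : crit c' (m * n) = (quad c')^[m * n] 0 := rfl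
      rw [h2] at h1
      norm_num at h1 ⊢
      linarith

end Pool.Agent.H10.MB
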