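import Mathlib

set_option linter.style.longLine false

/-! A set of complex numbers with holes of fixed relative size at arbitrarily small scales
has area zero. -/

namespace Pool.Agent.H10.MB

open MeasureTheory Metric Filter Topology Set

/-- `R` has holes at `c`: for some `η > 0` there are arbitrarily small discs with centre `c`
that contain a disc of relative size `η` disjoint from `R` -/
def HasHoles (R : Set ℂ) (c : ℂ) : Prop :=
  ∃ η : ℝ, 0 < η ∧ ∀ ε : ℝ, 0 < ε → ∃ r : ℝ, 0 < r ∧ r ≤ ε ∧ ∃ y : ℂ,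
    closedBall y (η * r) ⊆ closedBall c r ∧ Disjoint (closedBall y (η * r)) R

lemma volume_closedBall_ne_top (c : ℂ) (r : ℝ) : volume (closedBall c r) ≠ ⊤ :=
  (isCompact_closedBall c r).measure_lt_top.ne

lemma volume_closedBall_pos (c : ℂ) {r : ℝ} (hr : 0 < r) : volume (closedBall c r) ≠ 0 :=
  (measure_closedBall_pos volume c hr).ne'

lemma ratio_le {R : Set ℂ} {c y : ℂ} {η r : ℝ} (hη : 0 < η) (hr : 0 < r)
    (h1 : closedBall y (η * r) ⊆ closedBall c r) (h2 : Disjoint (closedBall y (η * r)) R) :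
    volume (R ∩ closedBall c r) / volume (closedBall c r) ≤ 1 - ENNReal.ofReal (η ^ 2) := by
  have hB0 := volume_closedBall_pos c hr
  have hBt := volume_closedBall_ne_top c r
  have hyt := volume_closedBall_ne_top y (η * r)
  have hsub : R ∩ closedBall c r ⊆ closedBall c r \ closedBall y (η * r) := by
    intro z hz
    refine ⟨hz.2, fun hy => ?_⟩
    exact Set.disjoint_left.mp h2 hy hz.1
  have hvol : volume (closedBall y (η * r)) = ENNReal.ofReal (η ^ 2) * volume (closedBall c r) := by
    rw [Complex.volume_closedBall, Complex.volume_closedBall, ENNReal.ofReal_mul hη.le, mul_pow,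
      ENNReal.ofReal_pow hη.le, mul_assoc]
  have hd : volume (closedBall c r \ closedBall y (η * r))
      = volume (closedBall c r) - volume (closedBall y (η * r)) :=
    measure_sdiff h1 isClosed_closedBall.nullMeasurableSet hyt
  calc volume (R ∩ closedBall c r) / volume (closedBall c r)
      ≤ (volume (closedBall c r) - volume (closedBall y (η * r))) / volume (closedBall c r) := by
        gcongr
        rw [← hd]
        exact measure_mono hsub
    _ = 1 - ENNReal.ofReal (η ^ 2) := by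
        rw [hvol, ENNReal.sub_div (fun _ _ => hB0), ENNReal.div_self hB0 hBt,
          mul_div_assoc, ENNReal.div_self hB0 hBt, mul_one]

/-- the points of `R` at which `R` has holes form a set of area zero -/
theorem volume_holes_eq_zero (R : Set ℂ) : volume {c | c ∈ R ∧ HasHoles R c} = 0 := by
  have h := Besicovitch.ae_tendsto_measure_inter_div (volume : Measure ℂ) R
  rw [ae_iff] at h
  have hle := Measure.le_restrict_apply (μ := (volume : Measure ℂ)) R
    {a | ¬ Tendsto (fun r => volume (R ∩ closedBall a r) / volume (closedBall a r)) (𝓝[>] 0) (𝓝 1)}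
  rw [h] at hle
  refine measure_mono_null ?_ (le_antisymm hle (by simp))
  rintro c ⟨hcR, η, hη, hc⟩
  refine ⟨?_, hcR⟩
  intro ht
  have hlt : 1 - ENNReal.ofReal (η ^ 2) < 1 := by
    refine ENNReal.sub_lt_self ENNReal.one_ne_top one_ne_zero ?_
    rw [Ne, ENNReal.ofReal_eq_zero, not_le]
    positivity
  have hev : ∀ᶠ r in 𝓝[>] (0 : ℝ),
      1 - ENNReal.ofReal (η ^ 2) < volume (R ∩ closedBall c r) / volume (closedBall c r) :=
    ht.eventually (lt_mem_nhds hlt)
  rw [eventually_nhdsWithin_iff, Metric.eventually_nhds_iff] at hev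
  obtain ⟨ε, hε, hb⟩ := hev
  obtain ⟨r, hr, hre, y, h1, h2⟩ := hc (ε / 2) (half_pos hε)
  have := hb (y := r) (by rw [Real.dist_eq, sub_zero, abs_of_pos hr]; linarith) hr
  exact absurd (ratio_le hη hr h1 h2) (not_le.mpr this)

/-- variant with hole discs `closedBall y t` at distance at most `r - t` -/
theorem volume_eq_zero_of_holes {R S : Set ℂ} (h : ∀ c ∈ S, ∃ η : ℝ, 0 < η ∧ ∀ ε : ℝ, 0 < ε →
    ∃ (r t : ℝ) (y : ℂ), r ≤ ε ∧ 0 < r ∧ η * r ≤ t ∧ ‖y - c‖ + t ≤ r ∧
      ∀ z, ‖z - y‖ ≤ t → z ∉ R) : volume (S ∩ R) = 0 := by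
  refine measure_mono_null ?_ (volume_holes_eq_zero R)
  rintro c ⟨hcS, hcR⟩
  refine ⟨hcR, ?_⟩
  obtain ⟨η, hη, hh⟩ := h c hcS
  refine ⟨η, hη, fun ε hε => ?_⟩
  obtain ⟨r, t, y, h1, h2, h3, h4, h5⟩ := hh ε hε
  refine ⟨r, h2, h1, y, ?_, ?_⟩
  · intro z hz
    rw [mem_closedBall, dist_eq_norm] at hz ⊢
    calc ‖z - c‖ = ‖(z - y) + (y - c)‖ := by ring_nf
      _ ≤ ‖z - y‖ + ‖y - c‖ := norm_add_le _ _
      _ ≤ t + ‖y - c‖ := by linarith
      _ ≤ r := by linarith
  · rw [Set.disjoint_left]
    intro z hz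
    rw [mem_closedBall, dist_eq_norm] at hz
    exact h5 z (hz.trans h3)

end Pool.Agent.H10.MB
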