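import Mathlib

set_option linter.style.longLine false

/-! The radii of the hole discs tend to zero (purely about sequences). -/

namespace Pool.Agent.H10.MB

open Finset

/-- if the three conditions of the class hold for all `n` in an infinite set `S`, then
`1 / (‖A n‖ * ‖D n‖)` is arbitrarily small for `n ∈ S` -/
theorem exists_radius_le {z A D : ℕ → ℂ} {T : ℕ → ℝ} {K : ℝ} (hK : 0 < K)
    (hA1 : ‖A 1‖ = 1) (hT : ∀ n, 1 ≤ n → 1 ≤ T n) {S : Set ℕ} (hS : S.Infinite)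
    (h2 : ∀ n ∈ S, 2 ≤ n) (hz : ∀ n ∈ S, ∀ j, 1 ≤ j → j < n → z j ≠ 0)
    (hA : ∀ n ∈ S, ‖A n‖ * ‖z n‖ ≤ K)
    (hB : ∀ n ∈ S, K * T n * ∑ j ∈ Ico 1 n, ‖A j‖ * T j / ‖z j‖ ≤ ‖D n‖ ^ 2 / 100)
    (hC : ∀ n ∈ S, ∑ j ∈ Ico 1 n, ‖A j‖ / ‖z j‖ ≤ ‖A n‖ ^ 2 / 100)
    {ε : ℝ} (hε : 0 < ε) :
    ∃ n ∈ S, 0 < ‖A n‖ ∧ 0 < ‖D n‖ ∧ 1 / (‖A n‖ * ‖D n‖) ≤ ε := by
  obtain ⟨n₀, hn₀⟩ := hS.nonempty
  have hz1 : z 1 ≠ 0 := hz n₀ hn₀ 1 le_rfl (h2 n₀ hn₀)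
  set m : ℝ := 1 / ‖z 1‖ with hm
  have hmpos : 0 < m := by
    have := norm_pos_iff.mpr hz1
    positivity
  have hAm : ∀ n ∈ S, 100 * m ≤ ‖A n‖ ^ 2 := by
    intro n hn
    have h1 : ‖A 1‖ / ‖z 1‖ ≤ ∑ j ∈ Ico 1 n, ‖A j‖ / ‖z j‖ :=
      single_le_sum (f := fun j => ‖A j‖ / ‖z j‖) (fun j _ => by positivity)
        (mem_Ico.mpr ⟨le_rfl, h2 n hn⟩)
    have h3 := hC n hn
    rw [hA1] at h1
    linarith
  have hDm : ∀ n ∈ S, 100 * (K * m) ≤ ‖D n‖ ^ 2 := by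
    intro n hn
    have h2n := h2 n hn
    have hnn : ∀ j ∈ Ico 1 n, 0 ≤ ‖A j‖ * T j / ‖z j‖ := by
      intro j hj
      have := hT j (mem_Ico.mp hj).1
      have : 0 ≤ T j := by linarith
      positivity
    have h1 : ‖A 1‖ * T 1 / ‖z 1‖ ≤ ∑ j ∈ Ico 1 n, ‖A j‖ * T j / ‖z j‖ :=
      single_le_sum (f := fun j => ‖A j‖ * T j / ‖z j‖) hnn (mem_Ico.mpr ⟨le_rfl, h2n⟩)
    have h3 := hB n hn
    rw [hA1, one_mul] at h1
    have h4 : m ≤ T 1 / ‖z 1‖ := by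
      rw [hm]
      have := hT 1 le_rfl
      gcongr
    have h5 := hT n (by omega)
    have h6 : m ≤ ∑ j ∈ Ico 1 n, ‖A j‖ * T j / ‖z j‖ := h4.trans h1
    have h7 : K * m ≤ K * T n * ∑ j ∈ Ico 1 n, ‖A j‖ * T j / ‖z j‖ := by
      calc K * m ≤ K * ∑ j ∈ Ico 1 n, ‖A j‖ * T j / ‖z j‖ := by gcongr
        _ ≤ (K * T n) * ∑ j ∈ Ico 1 n, ‖A j‖ * T j / ‖z j‖ := by
          have : 0 ≤ ∑ j ∈ Ico 1 n, ‖A j‖ * T j / ‖z j‖ := hmpos.le.trans h6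
          apply mul_le_mul_of_nonneg_right _ this
          nlinarith
    linarith
  have hpos : ∀ n ∈ S, 0 < ‖A n‖ := by
    intro n hn
    have := hAm n hn
    rcases (norm_nonneg (A n)).lt_or_eq with h | h
    · exact h
    · rw [← h] at this; nlinarith
  have hDpos : ∀ n ∈ S, 0 < ‖D n‖ := by
    intro n hn
    have := hDm n hn
    rcases (norm_nonneg (D n)).lt_or_eq with h | h
    · exact h
    · rw [← h] at this
      have : 0 < K * m := by positivity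
      nlinarith
  -- choose many elements of `S`
  obtain ⟨N, hN⟩ := exists_nat_gt (1 / (ε ^ 2 * (100 * (K * m)) * (100 * (100 * m / K))))
  obtain ⟨F, hF, hFc⟩ := hS.exists_subset_card_eq (N + 1)
  have hFne : F.Nonempty := by
    rw [← card_pos, hFc]; omega
  set n := F.max' hFne with hn
  have hnF : n ∈ F := F.max'_mem hFne
  have hnS : n ∈ S := hF hnF
  refine ⟨n, hnS, hpos n hnS, hDpos n hnS, ?_⟩
  have hsub : F.erase n ⊆ Ico 1 n := by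
    intro j hj
    rw [mem_erase] at hj
    have h3 : j ≤ n := F.le_max' j hj.2
    have h4 := h2 j (hF hj.2)
    rw [mem_Ico]
    omega
  have hterm : ∀ j ∈ F.erase n, 100 * m / K ≤ ‖A j‖ / ‖z j‖ := by
    intro j hj
    have hj1 := mem_Ico.mp (hsub hj)
    have hjS : j ∈ S := hF (mem_of_mem_erase hj)
    have hzj : z j ≠ 0 := hz n hnS j hj1.1 hj1.2
    have hzp := norm_pos_iff.mpr hzj
    have h3 := hA j hjS
    have h4 := hAm j hjS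
    have h5 := hpos j hjS
    rw [div_le_div_iff₀ hK hzp]
    nlinarith
  have hcard : ((F.erase n).card : ℝ) = N := by
    rw [card_erase_of_mem hnF, hFc]; simp
  have hsum : (N : ℝ) * (100 * m / K) ≤ ∑ j ∈ Ico 1 n, ‖A j‖ / ‖z j‖ := by
    calc (N : ℝ) * (100 * m / K) = ∑ j ∈ F.erase n, 100 * m / K := by
          rw [sum_const, nsmul_eq_mul, hcard]
      _ ≤ ∑ j ∈ F.erase n, ‖A j‖ / ‖z j‖ := sum_le_sum hterm
      _ ≤ ∑ j ∈ Ico 1 n, ‖A j‖ / ‖z j‖ :=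
          sum_le_sum_of_subset_of_nonneg hsub (fun j _ _ => by positivity)
  have hA2 : (N : ℝ) * (100 * (100 * m / K)) ≤ ‖A n‖ ^ 2 := by
    have := hC n hnS
    nlinarith
  have hD2 := hDm n hnS
  have hq : 0 < ε ^ 2 * (100 * (K * m)) * (100 * (100 * m / K)) := by positivity
  rw [div_lt_iff₀ hq] at hN
  have hprod : 1 ≤ ε ^ 2 * (‖A n‖ ^ 2 * ‖D n‖ ^ 2) := by
    have hk : 0 < 100 * (K * m) := by positivity
    have hmul : ((N : ℝ) * (100 * (100 * m / K))) * (100 * (K * m)) ≤ ‖A n‖ ^ 2 * ‖D n‖ ^ 2 :=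
      mul_le_mul hA2 hD2 hk.le (by positivity)
    have he : 0 < ε ^ 2 := by positivity
    calc (1 : ℝ) ≤ N * (ε ^ 2 * (100 * (K * m)) * (100 * (100 * m / K))) := hN.le
      _ = ε ^ 2 * (((N : ℝ) * (100 * (100 * m / K))) * (100 * (K * m))) := by ring
      _ ≤ ε ^ 2 * (‖A n‖ ^ 2 * ‖D n‖ ^ 2) := by gcongr
  have hAn := hpos n hnS
  have hDn := hDpos n hnS
  rw [div_le_iff₀ (by positivity)]
  have h8 : 1 ≤ (ε * (‖A n‖ * ‖D n‖)) ^ 2 := by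
    calc (1 : ℝ) ≤ ε ^ 2 * (‖A n‖ ^ 2 * ‖D n‖ ^ 2) := hprod
      _ = (ε * (‖A n‖ * ‖D n‖)) ^ 2 := by ring
  have h9 : 0 ≤ ε * (‖A n‖ * ‖D n‖) := by positivity
  nlinarith

end Pool.Agent.H10.MB
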