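import Pool.Agent.H47.MB.RowS1
import Pool.Agent.H48.MB.RowS2

set_option linter.style.longLine false

/-! MB2, row R: the next centre of the construction satisfies the distortion bounds. -/

namespace Pool.Agent.H10.MB

open Finset
open Pool.Agent.H51.IR Pool.Agent.H98.MB Pool.Agent.H47.MB

theorem B_one (c' x : ℂ) : B c' x 1 = 1 := by simp [B]

theorem B_succ (c' x : ℂ) {i : ℕ} (hi : 1 ≤ i) :
    B c' x (i + 1) = B c' x i * (2 * (quad c')^[i] x) := by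
  unfold B
  rw [Finset.prod_Ico_succ_top hi]

theorem A_block (c' : ℂ) (N : ℕ) {i : ℕ} (hi : 1 ≤ i) :
    A c' (N + i) = A c' (N + 1) * B c' (crit c' N) i := by
  induction i, hi using Nat.le_induction with
  | base => rw [B_one, mul_one]
  | succ i hi ih =>
    rw [B_succ _ _ hi, ← add_assoc, A_succ _ (by omega), ih, crit_add]
    ring

theorem T_block (c' : ℂ) (N i : ℕ) :
    T c' (N + i) = T c' N + ∑ l ∈ Icc 1 i, ‖A c' (N + l)‖⁻¹ := by
  induction i with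
  | zero => simp
  | succ i ih => rw [← add_assoc, T_succ, ih, Finset.sum_Icc_succ_top (by omega), add_assoc, add_assoc]

/-- the sum of the inverses of the derivatives -/
noncomputable def Gs (c : ℂ) (j : ℕ) : ℂ := ∑ i ∈ Icc 1 j, (A c i)⁻¹

theorem Gs_zero (c : ℂ) : Gs c 0 = 0 := by simp [Gs]

theorem Gs_succ (c : ℂ) (j : ℕ) : Gs c (j + 1) = Gs c j + (A c (j + 1))⁻¹ := by
  unfold Gs
  rw [Finset.sum_Icc_succ_top (by omega)]

theorem Gs_block (c' : ℂ) (N i : ℕ) :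
    Gs c' (N + i) = Gs c' N + ∑ l ∈ Icc 1 i, (A c' (N + l))⁻¹ := by
  induction i with
  | zero => simp
  | succ i ih => rw [← add_assoc, Gs_succ, ih, Finset.sum_Icc_succ_top (by omega), add_assoc, add_assoc]

theorem Dp_eq_mul {c : ℂ} {j : ℕ} (hj : 1 ≤ j) (hz : ∀ i ∈ Ico 1 j, crit c i ≠ 0) :
    Dp c j = A c j * Gs c j := by
  induction j, hj using Nat.le_induction with
  | base => simp [Dp, Gs, A_one, crit_zero]
  | succ j hj ih =>
    have hz' : ∀ i ∈ Ico 1 j, crit c i ≠ 0 := fun i hi =>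
      hz i (Ico_subset_Ico_right (Nat.le_succ j) hi)
    have hA : A c (j + 1) ≠ 0 := A_ne_zero hz
    have h1 : Dp c (j + 1) = 2 * crit c j * Dp c j + 1 := rfl
    rw [h1, ih hz', Gs_succ, mul_add, mul_inv_cancel₀ hA, A_succ _ hj]
    ring

theorem sum_block (f : ℕ → ℝ) {N i : ℕ} (hN : 1 ≤ N) (hi : 1 ≤ i) :
    ∑ j ∈ Ico 1 (N + i), f j = ∑ j ∈ Ico 1 N, f j + f N + ∑ l ∈ Ico 1 i, f (N + l) := by
  induction i, hi using Nat.le_induction with
  | base => rw [Finset.sum_Ico_succ_top hN, Finset.Ico_self, Finset.sum_empty, add_zero]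
  | succ i hi ih =>
    rw [← add_assoc, Finset.sum_Ico_succ_top (by omega), ih, Finset.sum_Ico_succ_top hi, add_assoc]

/-- the hypotheses of the row -/
structure Hyp (c : ℂ) (n : ℕ) (c' : ℂ) (q : ℕ) : Prop where
  hc : Centre c n
  hq : 4 ≤ q
  near : ∀ m < q, Near c n c' (crit c' (m * n))
  lo : ∀ m, 1 ≤ m → m < q → 1.25 ≤ ‖A c n‖ * ‖crit c' (m * n)‖
  hi : ∀ m, 1 ≤ m → m < q → ‖A c n‖ * ‖crit c' (m * n)‖ ≤ 2.3
  one : 1.6 ≤ ‖A c n‖ * ‖crit c' (1 * n)‖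

/-- the derivative at the beginning of the `m`-th block -/
noncomputable def Q (c' : ℂ) (n m : ℕ) : ℂ := A c' (m * n + 1)

theorem Q_zero (c' : ℂ) (n : ℕ) : Q c' n 0 = 1 := by
  unfold Q
  rw [zero_mul, zero_add, A_one]

variable {c c' : ℂ} {n q : ℕ}

theorem A_eq (c' : ℂ) (n m : ℕ) {i : ℕ} (hi : 1 ≤ i) :
    A c' (m * n + i) = Q c' n m * B c' (crit c' (m * n)) i := A_block c' (m * n) hi

theorem Q_succ (c' : ℂ) {n : ℕ} (hn : 1 ≤ n) (m : ℕ) :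
    Q c' n (m + 1) = Q c' n m * B c' (crit c' (m * n)) n * (2 * crit c' ((m + 1) * n)) := by
  have h1 : Q c' n (m + 1) = A c' ((m * n + n) + 1) := by
    unfold Q
    rw [add_one_mul]
  rw [h1, A_succ _ (by omega), A_eq c' n m hn, add_one_mul]

namespace Hyp

variable (h : Hyp c n c' q)

include h

theorem a_pos : 0 < ‖A c n‖ := norm_pos_iff.2 (h.hc.A_ne le_rfl)

theorem B_le {m : ℕ} (hm : m < q) {j : ℕ} (hj : 1 ≤ j) (hjn : j ≤ n) :
    ‖B c' (crit c' (m * n)) j‖ ≤ 1.005 * ‖A c j‖ := by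
  have := norm_le_of_sub ((h.near m hm).prod_le h.hc hj hjn)
  linarith

theorem B_ge {m : ℕ} (hm : m < q) {j : ℕ} (hj : 1 ≤ j) (hjn : j ≤ n) :
    0.995 * ‖A c j‖ ≤ ‖B c' (crit c' (m * n)) j‖ := by
  have := norm_ge_of_sub ((h.near m hm).prod_le h.hc hj hjn)
  linarith

theorem Q_grow {m : ℕ} (hm : m + 1 < q) {s : ℝ}
    (hs : s ≤ ‖A c n‖ * ‖crit c' ((m + 1) * n)‖) : 1.99 * s * ‖Q c' n m‖ ≤ ‖Q c' n (m + 1)‖ := by
  have h1 := h.B_ge (m := m) (by omega) h.hc.one_le le_rfl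
  rw [Q_succ c' h.hc.one_le, norm_mul, norm_mul, norm_mul]
  have h2 : ‖(2 : ℂ)‖ = 2 := by norm_num
  rw [h2]
  have hQ := norm_nonneg (Q c' n m)
  have hX := norm_nonneg (crit c' ((m + 1) * n))
  calc 1.99 * s * ‖Q c' n m‖ ≤ 1.99 * (‖A c n‖ * ‖crit c' ((m + 1) * n)‖) * ‖Q c' n m‖ := by gcongr
    _ = ‖Q c' n m‖ * (0.995 * ‖A c n‖) * (2 * ‖crit c' ((m + 1) * n)‖) := by ring
    _ ≤ ‖Q c' n m‖ * ‖B c' (crit c' (m * n)) n‖ * (2 * ‖crit c' ((m + 1) * n)‖) := by gcongr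

theorem Q_step {m : ℕ} (hm : m + 1 < q) : 2.4875 * ‖Q c' n m‖ ≤ ‖Q c' n (m + 1)‖ := by
  have := h.Q_grow hm (h.lo (m + 1) (by omega) hm)
  linarith

theorem Q_one : 3.184 ≤ ‖Q c' n 1‖ := by
  have hq := h.hq
  have := h.Q_grow (m := 0) (s := 1.6) (by omega) (by simpa using h.one)
  rw [Q_zero, norm_one] at this
  simpa using this.trans' (by norm_num)

theorem Q_ge {m : ℕ} (hm1 : 1 ≤ m) (hm : m < q) : 2 ^ m ≤ 0.995 * ‖Q c' n m‖ := by
  induction m, hm1 using Nat.le_induction with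
  | base =>
    have := h.Q_one
    norm_num
    linarith
  | succ m hm1 ih =>
    have h1 := ih (by omega)
    have h2 := h.Q_step hm
    have h3 := norm_nonneg (Q c' n m)
    rw [pow_succ]
    linarith

theorem Q_pos {m : ℕ} (hm : m < q) : 0 < ‖Q c' n m‖ := by
  rcases Nat.eq_zero_or_pos m with rfl | hm0
  · rw [Q_zero, norm_one]
    exact one_pos
  · have h1 := h.Q_ge hm0 hm
    have h2 : (0 : ℝ) < 2 ^ m := by positivity
    linarith

/-- the sum of the inverses of the derivatives at the beginnings of the blocks -/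
theorem sum_inv {m : ℕ} (hm1 : 1 ≤ m) (hm : m < q) :
    ∑ l ∈ range m, ‖Q c' n l‖⁻¹ + 1.6724 * ‖Q c' n m‖⁻¹ ≤ 1.5253 := by
  induction m, hm1 using Nat.le_induction with
  | base =>
    rw [Finset.sum_range_one, Q_zero, norm_one, inv_one]
    have h1 : ‖Q c' n 1‖⁻¹ ≤ (3.184 : ℝ)⁻¹ := inv_anti₀ (by norm_num) h.Q_one
    have h2 : (3.184 : ℝ)⁻¹ ≤ 0.31408 := by norm_num
    linarith
  | succ m hm1 ih =>
    have h1 := ih (by omega)
    have h2 := h.Q_step hm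
    have h3 : 0 < ‖Q c' n m‖ := h.Q_pos (by omega)
    have h4 : ‖Q c' n (m + 1)‖⁻¹ ≤ (2.4875 * ‖Q c' n m‖)⁻¹ := inv_anti₀ (by positivity) h2
    rw [mul_inv] at h4
    have h5 : (2.4875 : ℝ)⁻¹ ≤ 0.40202 := by norm_num
    have h6 : 0 < ‖Q c' n m‖⁻¹ := inv_pos.2 h3
    have h7 := mul_le_mul_of_nonneg_right h5 h6.le
    rw [Finset.sum_range_succ]
    linarith

theorem sum_inv_le {m : ℕ} (hm : m ≤ q) : ∑ l ∈ range m, ‖Q c' n l‖⁻¹ ≤ 1.5253 := by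
  rcases Nat.lt_or_ge m 2 with hm2 | hm2
  · have h1 : ∑ l ∈ range m, ‖Q c' n l‖⁻¹ ≤ ∑ l ∈ range 1, ‖Q c' n l‖⁻¹ :=
      Finset.sum_le_sum_of_subset_of_nonneg (Finset.range_subset_range.2 (by omega))
        fun i _ _ => by positivity
    rw [Finset.sum_range_one, Q_zero, norm_one, inv_one] at h1
    linarith
  · obtain ⟨k, rfl⟩ : ∃ k, m = k + 1 := ⟨m - 1, by omega⟩
    have h1 := h.sum_inv (m := k) (by omega) (by omega)
    have h3 : 0 < ‖Q c' n k‖ := h.Q_pos (by omega)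
    have h6 : 0 < ‖Q c' n k‖⁻¹ := inv_pos.2 h3
    rw [Finset.sum_range_succ]
    linarith

theorem T_le {m : ℕ} (hm : m ≤ q) :
    T c' (m * n) ≤ (∑ l ∈ range m, ‖Q c' n l‖⁻¹) * (1.0051 * T c n) := by
  induction m with
  | zero => simp [T]
  | succ m ih =>
    rw [add_one_mul, T_block, Finset.sum_range_succ, add_mul]
    refine add_le_add (ih (by omega)) ?_
    have hQ := h.Q_pos (m := m) (by omega)
    unfold T
    rw [mul_sum, mul_sum]
    refine Finset.sum_le_sum fun i hi => ?_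
    rw [Finset.mem_Icc] at hi
    rw [A_eq c' n m hi.1, norm_mul, mul_inv]
    refine mul_le_mul_of_nonneg_left ?_ (inv_nonneg.2 hQ.le)
    have h1 := h.B_ge (m := m) (by omega) hi.1 hi.2
    have hA : 0 < ‖A c i‖ := norm_pos_iff.2 (h.hc.A_ne hi.2)
    have h2 : ‖B c' (crit c' (m * n)) i‖⁻¹ ≤ (0.995 * ‖A c i‖)⁻¹ := inv_anti₀ (by positivity) h1
    rw [mul_inv] at h2
    have h5 : (0.995 : ℝ)⁻¹ ≤ 1.0051 := by norm_num
    exact h2.trans (mul_le_mul_of_nonneg_right h5 (inv_nonneg.2 hA.le))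

theorem T_le_two : T c' (q * n) ≤ 2 * T c n := by
  have h1 := h.T_le le_rfl
  have h2 := h.sum_inv_le le_rfl
  have hT := T_pos c h.hc.one_le
  have h3 := mul_le_mul_of_nonneg_right h2 (show (0 : ℝ) ≤ 1.0051 * T c n by positivity)
  linarith

/-- the inner sums -/
theorem inner {m : ℕ} (hm : m < q) :
    ‖∑ i ∈ Icc 1 n, (B c' (crit c' (m * n)) i)⁻¹ - Gs c n‖ ≤ 0.00503 * ‖Gs c n‖ := by
  have ha := h.a_pos
  have hT := T_pos c h.hc.one_le
  have hD : ‖Dp c n‖ = ‖A c n‖ * ‖Gs c n‖ := by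
    rw [Dp_eq_mul h.hc.one_le h.hc.ne, norm_mul]
  unfold Gs
  rw [← Finset.sum_sub_distrib]
  have key : ∀ i ∈ Icc 1 n, ‖(B c' (crit c' (m * n)) i)⁻¹ - (A c i)⁻¹‖ ≤
      0.00503 * (‖Gs c n‖ / T c n) * ‖A c i‖⁻¹ := by
    intro i hi
    rw [Finset.mem_Icc] at hi
    have hA : 0 < ‖A c i‖ := norm_pos_iff.2 (h.hc.A_ne hi.2)
    have h1 := h.B_ge (m := m) hm hi.1 hi.2
    have hB : 0 < ‖B c' (crit c' (m * n)) i‖ := lt_of_lt_of_le (by positivity) h1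
    have h2 := (h.near m hm).prod i (Finset.mem_Icc.2 hi)
    rw [hD] at h2
    have h3 : ‖B c' (crit c' (m * n)) i - A c i‖ ≤ 0.005 * ‖A c i‖ * (‖Gs c n‖ / T c n) := by
      rw [← mul_div_assoc, le_div_iff₀ hT]
      have h4 : ‖B c' (crit c' (m * n)) i - A c i‖ * T c n * ‖A c n‖ ≤
          0.005 * ‖A c i‖ * ‖Gs c n‖ * ‖A c n‖ := by
        nlinarith
      exact le_of_mul_le_mul_right h4 ha
    rw [inv_sub_inv (norm_pos_iff.1 hB) (norm_pos_iff.1 hA), norm_div, norm_mul, norm_sub_rev,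
      div_le_iff₀ (by positivity)]
    have h5 : 0 ≤ ‖Gs c n‖ / T c n := by positivity
    calc ‖B c' (crit c' (m * n)) i - A c i‖ ≤ 0.005 * ‖A c i‖ * (‖Gs c n‖ / T c n) := h3
      _ ≤ 0.00503 * (‖Gs c n‖ / T c n) * (0.995 * ‖A c i‖) := by
        have : 0 ≤ ‖A c i‖ * (‖Gs c n‖ / T c n) := by positivity
        nlinarith
      _ ≤ 0.00503 * (‖Gs c n‖ / T c n) * ‖B c' (crit c' (m * n)) i‖ := by gcongr
      _ = 0.00503 * (‖Gs c n‖ / T c n) * ‖A c i‖⁻¹ * (‖B c' (crit c' (m * n)) i‖ * ‖A c i‖) := by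
        field_simp
  refine (norm_sum_le _ _).trans ((Finset.sum_le_sum key).trans ?_)
  rw [← mul_sum]
  change 0.00503 * (‖Gs c n‖ / T c n) * T c n ≤ 0.00503 * ‖Gs c n‖
  rw [mul_assoc, div_mul_cancel₀ _ hT.ne']

theorem Gs_ge {m : ℕ} (hm1 : 1 ≤ m) (hm : m ≤ q) :
    (0.99497 - 1.00503 * (∑ l ∈ range m, ‖Q c' n l‖⁻¹ - 1)) * ‖Gs c n‖ ≤ ‖Gs c' (m * n)‖ := by
  have hblock : ∀ m, Gs c' ((m + 1) * n) = Gs c' (m * n) +
      (Q c' n m)⁻¹ * ∑ i ∈ Icc 1 n, (B c' (crit c' (m * n)) i)⁻¹ := by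
    intro m
    rw [add_one_mul, Gs_block, mul_sum]
    congr 1
    refine Finset.sum_congr rfl fun i hi => ?_
    rw [Finset.mem_Icc] at hi
    rw [A_eq c' n m hi.1, mul_inv]
  induction m, hm1 using Nat.le_induction with
  | base =>
    have h0 := hblock 0
    rw [zero_mul, Gs_zero, zero_add, Q_zero, inv_one, one_mul, zero_add] at h0
    have h1 := h.inner (m := 0) (by omega)
    rw [zero_mul] at h1
    have h2 := norm_ge_of_sub h1
    rw [one_mul n, h0, one_mul, Finset.sum_range_one, Q_zero, norm_one, inv_one]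
    linarith
  | succ m hm1 ih =>
    have h1 := ih (by omega)
    have h2 := norm_le_of_sub (h.inner (m := m) (by omega))
    have hQ : 0 < ‖Q c' n m‖ := h.Q_pos (by omega)
    have h6 : 0 < ‖Q c' n m‖⁻¹ := inv_pos.2 hQ
    rw [hblock m, Finset.sum_range_succ]
    have h3 : ‖(Q c' n m)⁻¹ * ∑ i ∈ Icc 1 n, (B c' (crit c' (m * n)) i)⁻¹‖ ≤
        ‖Q c' n m‖⁻¹ * (1.00503 * ‖Gs c n‖) := by
      rw [norm_mul, norm_inv]
      refine mul_le_mul_of_nonneg_left ?_ h6.le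
      linarith
    have h4 := norm_sub_norm_le (Gs c' (m * n))
      (-((Q c' n m)⁻¹ * ∑ i ∈ Icc 1 n, (B c' (crit c' (m * n)) i)⁻¹))
    rw [sub_neg_eq_add, norm_neg] at h4
    nlinarith

theorem Gs_third : ‖Gs c n‖ ≤ 3 * ‖Gs c' (q * n)‖ := by
  have hq := h.hq
  have h1 := h.Gs_ge (m := q) (by omega) le_rfl
  have h2 := h.sum_inv_le le_rfl
  have h3 := norm_nonneg (Gs c n)
  have h4 : (1 / 3 : ℝ) ≤ 0.99497 - 1.00503 * (∑ l ∈ range q, ‖Q c' n l‖⁻¹ - 1) := by linarith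
  have h5 := mul_le_mul_of_nonneg_right h4 h3
  linarith

/-- the orbit of `c'` does not vanish -/
theorem crit_ne {j : ℕ} (hj : j ∈ Ico 1 (q * n)) : crit c' j ≠ 0 := by
  rw [Finset.mem_Ico] at hj
  have hn := h.hc.one_le
  have hdm : j = (j / n) * n + j % n := by
    rw [mul_comm]; exact (Nat.div_add_mod j n).symm
  have hlt := Nat.mod_lt j hn
  have hm : j / n < q := (Nat.div_lt_iff_lt_mul hn).2 hj.2
  set m := j / n
  set i := j % n
  rcases Nat.eq_zero_or_pos i with hi | hi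
  · have hm1 : 1 ≤ m := by
      rcases Nat.eq_zero_or_pos m with h0 | h0
      · rw [h0, hi, zero_mul] at hdm
        omega
      · exact h0
    rw [hi, add_zero] at hdm
    rw [hdm]
    intro h0
    have := h.lo m hm1 hm
    rw [h0, norm_zero, mul_zero] at this
    norm_num at this
  · rw [hdm, crit_add]
    have hi' : i ∈ Ico 1 n := Finset.mem_Ico.2 ⟨hi, hlt⟩
    have h1 := norm_ge_of_sub ((h.near m hm).orbit i hi')
    have h2 : 0 < ‖crit c i‖ := norm_pos_iff.2 (h.hc.ne i hi')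
    exact norm_pos_iff.1 (lt_of_lt_of_le (by positivity) h1)

/-- the sum of the distortion over one block -/
theorem S_inner {m : ℕ} (hm : m < q) :
    ∑ i ∈ Ico 1 n, ‖A c' (m * n + i)‖ / ‖crit c' (m * n + i)‖ ≤
      ‖Q c' n m‖ * (1.0101 * ∑ j ∈ Ico 1 n, ‖A c j‖ / ‖crit c j‖) := by
  rw [mul_sum, mul_sum]
  refine Finset.sum_le_sum fun i hi => ?_
  have hi' := Finset.mem_Ico.1 hi
  have h1 := norm_ge_of_sub ((h.near m hm).orbit i hi)
  have h2 : 0 < ‖crit c i‖ := norm_pos_iff.2 (h.hc.ne i hi)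
  have h3 : 0 < ‖(quad c')^[i] (crit c' (m * n))‖ := lt_of_lt_of_le (by positivity) h1
  have h4 := h.B_le hm hi'.1 hi'.2.le
  rw [A_eq c' n m hi'.1, norm_mul, crit_add, mul_div_assoc]
  refine mul_le_mul_of_nonneg_left ?_ (norm_nonneg _)
  rw [← mul_div_assoc, div_le_div_iff₀ h3 h2]
  have h5 : 0 ≤ ‖A c i‖ := norm_nonneg _
  calc ‖B c' (crit c' (m * n)) i‖ * ‖crit c i‖ ≤ 1.005 * ‖A c i‖ * ‖crit c i‖ := by gcongr
    _ ≤ 1.0101 * ‖A c i‖ * ((1 - 0.005) * ‖crit c i‖) := by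
      have : 0 ≤ ‖A c i‖ * ‖crit c i‖ := by positivity
      nlinarith
    _ ≤ 1.0101 * ‖A c i‖ * ‖(quad c')^[i] (crit c' (m * n))‖ := by gcongr

theorem S_le {m : ℕ} (hm1 : 1 ≤ m) (hm : m ≤ q) :
    ∑ j ∈ Ico 1 (m * n), ‖A c' j‖ / ‖crit c' j‖ ≤
      ‖Q c' n (m - 1)‖ * (1.69 * ∑ j ∈ Ico 1 n, ‖A c j‖ / ‖crit c j‖ + 0.541 * ‖A c n‖ ^ 2) := by
  have ha := h.a_pos
  have hn := h.hc.one_le
  set S := ∑ j ∈ Ico 1 n, ‖A c j‖ / ‖crit c j‖ with hS
  have hS0 : 0 ≤ S := Finset.sum_nonneg fun i _ => by positivity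
  induction m, hm1 using Nat.le_induction with
  | base =>
    have h1 := h.S_inner (m := 0) (by omega)
    rw [Nat.sub_self, one_mul]
    simp only [zero_mul, zero_add] at h1
    rw [Q_zero, norm_one, one_mul] at h1 ⊢
    rw [← hS] at h1
    have : 0 ≤ ‖A c n‖ ^ 2 := by positivity
    linarith
  | succ m hm1 ih =>
    have h1 := ih (by omega)
    obtain ⟨k, rfl⟩ : ∃ k, m = k + 1 := ⟨m - 1, by omega⟩
    simp only [Nat.add_sub_cancel] at h1 ⊢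
    have hN : 1 ≤ (k + 1) * n := Nat.mul_pos (by omega) hn
    rw [add_one_mul (k + 1) n, sum_block _ hN hn]
    have h2 := h.S_inner (m := k + 1) (by omega)
    rw [← hS] at h2
    have h3 : ‖A c' ((k + 1) * n)‖ / ‖crit c' ((k + 1) * n)‖ ≤ ‖Q c' n k‖ * (0.804 * ‖A c n‖ ^ 2) := by
      have h4 := h.lo (k + 1) (by omega) (by omega)
      have h5 : 0 < ‖crit c' ((k + 1) * n)‖ := by
        rcases (norm_nonneg (crit c' ((k + 1) * n))).eq_or_lt with h0 | h0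
        · rw [← h0, mul_zero] at h4
          norm_num at h4
        · exact h0
      rw [div_le_iff₀ h5]
      have h6 := h.B_le (m := k) (by omega) hn le_rfl
      have h7 : A c' ((k + 1) * n) = Q c' n k * B c' (crit c' (k * n)) n := by
        rw [add_one_mul, A_eq c' n k hn]
      rw [h7, norm_mul, mul_assoc]
      refine mul_le_mul_of_nonneg_left ?_ (norm_nonneg _)
      nlinarith
    have h8 := h.Q_step (m := k) (by omega)
    have h9 := norm_nonneg (Q c' n k)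
    have h10 : 0 ≤ ‖A c n‖ ^ 2 := by positivity
    have h11 : ‖Q c' n k‖ ≤ 0.40202 * ‖Q c' n (k + 1)‖ := by linarith
    have h12 : ‖Q c' n k‖ * (1.69 * S + 0.541 * ‖A c n‖ ^ 2 + 0.804 * ‖A c n‖ ^ 2) ≤
        0.40202 * ‖Q c' n (k + 1)‖ * (1.69 * S + 0.541 * ‖A c n‖ ^ 2 + 0.804 * ‖A c n‖ ^ 2) :=
      mul_le_mul_of_nonneg_right h11 (by positivity)
    have h13 : 0 ≤ ‖Q c' n (k + 1)‖ * S := by positivity
    have h14 : 0 ≤ ‖Q c' n (k + 1)‖ * ‖A c n‖ ^ 2 := by positivity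
    nlinarith

end Hyp

theorem rowR : StatR := by
  intro c n c' q hc hdist hq hlarge hnear hX hone hzero
  have h : Hyp c n c' q := ⟨hc, hq, hnear, fun m h1 h2 => (hX m h1 h2).1,
    fun m h1 h2 => (hX m h1 h2).2, hone⟩
  have hn := hc.one_le
  have ha := h.a_pos
  have hT := T_pos c hn
  have hDp : 0 < ‖Dp c n‖ := norm_pos_iff.2 hc.dp
  have hDT := norm_Dp_le hn hc.ne
  have hne : ∀ j ∈ Ico 1 (q * n), crit c' j ≠ 0 := fun j hj => h.crit_ne hj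
  have hqn : 1 ≤ q * n := Nat.mul_pos (by omega) hn
  have hG : ‖Dp c n‖ = ‖A c n‖ * ‖Gs c n‖ := by
    rw [Dp_eq_mul hn hc.ne, norm_mul]
  have hG' : ‖Dp c' (q * n)‖ = ‖A c' (q * n)‖ * ‖Gs c' (q * n)‖ := by
    rw [Dp_eq_mul hqn hne, norm_mul]
  have hG3 := h.Gs_third
  obtain ⟨p, rfl⟩ : ∃ p, q = p + 1 := ⟨q - 1, by omega⟩
  rw [Nat.add_sub_cancel] at hlarge
  have hA' : ‖A c' ((p + 1) * n)‖ = ‖Q c' n p‖ * ‖B c' (crit c' (p * n)) n‖ := by
    rw [add_one_mul, A_eq c' n p hn, norm_mul]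
  have hQp := h.Q_ge (m := p) (by omega) (by omega)
  have hB1 := h.B_ge (m := p) (by omega) hn le_rfl
  have hQ0 := norm_nonneg (Q c' n p)
  have hAge1 : ‖Q c' n p‖ * (0.995 * ‖A c n‖) ≤ ‖A c' ((p + 1) * n)‖ := by
    rw [hA']
    exact mul_le_mul_of_nonneg_left hB1 hQ0
  have hAge : 2 ^ p * ‖A c n‖ ≤ ‖A c' ((p + 1) * n)‖ := by
    have := mul_le_mul_of_nonneg_right hQp ha.le
    linarith
  have hp8 : (8 : ℝ) ≤ 2 ^ p := by
    calc (8 : ℝ) = 2 ^ 3 := by norm_num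
      _ ≤ 2 ^ p := pow_le_pow_right₀ one_le_two (by omega)
  have hA8 : 8 * ‖A c n‖ ≤ ‖A c' ((p + 1) * n)‖ :=
    (mul_le_mul_of_nonneg_right hp8 ha.le).trans hAge
  set a' := ‖A c' ((p + 1) * n)‖ with ha'
  have ha'0 : 0 < a' := by linarith
  have hD' : a' * ‖Dp c n‖ ≤ 3 * ‖A c n‖ * ‖Dp c' ((p + 1) * n)‖ := by
    rw [hG, hG']
    have := mul_le_mul_of_nonneg_left hG3 (show 0 ≤ a' * ‖A c n‖ by positivity)
    linarith
  have hD'0 : 0 < ‖Dp c' ((p + 1) * n)‖ := by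
    have h1 : 0 < 3 * ‖A c n‖ * ‖Dp c' ((p + 1) * n)‖ := lt_of_lt_of_le (by positivity) hD'
    exact (mul_pos_iff_of_pos_left (by positivity)).1 h1
  have hS := h.S_le (m := p + 1) (by omega) le_rfl
  rw [Nat.add_sub_cancel] at hS
  set S := ∑ j ∈ Ico 1 n, ‖A c j‖ / ‖crit c j‖ with hSdef
  set S' := ∑ j ∈ Ico 1 ((p + 1) * n), ‖A c' j‖ / ‖crit c' j‖ with hS'def
  have hS0 : 0 ≤ S := Finset.sum_nonneg fun i _ => by positivity
  have hS'0 : 0 ≤ S' := Finset.sum_nonneg fun i _ => by positivity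
  have hsmall := hc.small
  rw [← hSdef] at hsmall
  have hSa : 10 ^ 4 * S ≤ ‖A c n‖ ^ 2 := by
    have h6 : ‖Dp c n‖ ^ 2 ≤ (‖A c n‖ * T c n) ^ 2 := by gcongr
    have h8 : T c n ^ 2 * (10 ^ 4 * S) ≤ T c n ^ 2 * ‖A c n‖ ^ 2 := by
      nlinarith
    exact le_of_mul_le_mul_left h8 (by positivity)
  have hS'a : S' ≤ ‖A c n‖ * a' := by
    have h1 : 1.69 * S + 0.541 * ‖A c n‖ ^ 2 ≤ 0.995 * ‖A c n‖ * ‖A c n‖ := by nlinarith
    have h2 := mul_le_mul_of_nonneg_left h1 hQ0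
    have h3 := mul_le_mul_of_nonneg_right hAge1 ha.le
    nlinarith
  have hT2 := h.T_le_two
  have hT'0 := T_nonneg c' ((p + 1) * n)
  have hsmall' : 10 ^ 4 * (T c' ((p + 1) * n) ^ 2 * S') ≤ ‖Dp c' ((p + 1) * n)‖ ^ 2 := by
    have h1 : T c' ((p + 1) * n) ^ 2 ≤ (2 * T c n) ^ 2 := by gcongr
    have h2 : T c' ((p + 1) * n) ^ 2 * S' ≤ (2 * T c n) ^ 2 * (‖A c n‖ * a') := by gcongr
    have h3 : (a' * ‖Dp c n‖) ^ 2 ≤ (3 * ‖A c n‖ * ‖Dp c' ((p + 1) * n)‖) ^ 2 := by gcongr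
    have h4 : 3.6e5 * (T c n ^ 2 * ‖A c n‖ ^ 2) * (a' * ‖A c n‖) ≤
        2 ^ p * ‖Dp c n‖ ^ 2 * (a' * ‖A c n‖) := by gcongr
    have h5 : 2 ^ p * ‖A c n‖ * (a' * ‖Dp c n‖ ^ 2) ≤ a' * (a' * ‖Dp c n‖ ^ 2) := by gcongr
    have h6 : 9 * ‖A c n‖ ^ 2 * (10 ^ 4 * (T c' ((p + 1) * n) ^ 2 * S')) ≤
        9 * ‖A c n‖ ^ 2 * ‖Dp c' ((p + 1) * n)‖ ^ 2 := by
      have h7 := mul_le_mul_of_nonneg_left h2 (show 0 ≤ 9 * ‖A c n‖ ^ 2 * 10 ^ 4 by positivity)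
      nlinarith
    exact le_of_mul_le_mul_left h6 (by positivity)
  refine ⟨⟨hqn, hne, hzero, norm_pos_iff.1 hD'0, hsmall'⟩, ⟨⟨p + 1, hq, rfl⟩, hdist, ?_, ?_, ?_⟩⟩
  · have h1 := mul_le_mul_of_nonneg_left hD' ha'0.le
    have h2 : (8 * ‖A c n‖) ^ 2 ≤ a' ^ 2 := by gcongr
    have h3 := mul_le_mul_of_nonneg_right h2 hDp.le
    have h4 : 3 * ‖A c n‖ * (10 * (‖A c n‖ * ‖Dp c n‖)) ≤
        3 * ‖A c n‖ * (a' * ‖Dp c' ((p + 1) * n)‖) := by
      have h5 : 0 ≤ ‖A c n‖ ^ 2 * ‖Dp c n‖ := by positivity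
      nlinarith
    exact le_of_mul_le_mul_left h4 (by positivity)
  · linarith
  · intro m
    have hdm : m = (m / (p + 1)) * (p + 1) + m % (p + 1) := by
      rw [mul_comm]; exact (Nat.div_add_mod m (p + 1)).symm
    have hlt := Nat.mod_lt m (show 0 < p + 1 by omega)
    have hmn : m * n = (m / (p + 1)) * ((p + 1) * n) + (m % (p + 1)) * n := by
      conv_lhs => rw [hdm]
      ring
    rw [hmn, crit_add, Pool.Agent.H48.MB.crit_mul_eq_zero hzero]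
    change ‖A c n‖ * ‖crit c' (m % (p + 1) * n)‖ ≤ 2.3
    rcases Nat.eq_zero_or_pos (m % (p + 1)) with h0 | h0
    · rw [h0, zero_mul, crit_zero, norm_zero, mul_zero]
      norm_num
    · exact (hX _ h0 hlt).2

end Pool.Agent.H10.MB
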