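import Pool.Agent.H98.MB.Defs

set_option linter.style.longLine false

/-! A readable sufficient form of the conditions (B) and (C) of the class. -/

namespace Pool.Agent.H10.MB

open Finset Pool.Agent.H98.MB

theorem T_le_of_one_le {c : ℂ} {n j : ℕ} (hA1 : ∀ i ∈ Icc 1 n, 1 ≤ ‖A c i‖) (hj : j ≤ n) :
    T c j ≤ j := by
  unfold T
  calc ∑ i ∈ Icc 1 j, ‖A c i‖⁻¹ ≤ ∑ i ∈ Icc 1 j, (1 : ℝ) := by
        refine sum_le_sum fun i hi => ?_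
        rw [mem_Icc] at hi
        exact inv_le_one_of_one_le₀ (hA1 i (mem_Icc.mpr ⟨hi.1, hi.2.trans hj⟩))
    _ = j := by simp

theorem T_nonneg' (c : ℂ) (j : ℕ) : 0 ≤ T c j :=
  sum_nonneg fun _ _ => by positivity

/-- if all `|A_i|` (`i ≤ n`) are at least one, `|D_n| ≥ |A_n| / n` and
`100 K n^5 |A_j| ≤ |z_j| |A_n|^2` for all `1 ≤ j < n`, then conditions (B) and (C) hold at `n` -/
theorem cond_of_readable {c : ℂ} {K : ℝ} {n : ℕ} (hK : 1 ≤ K) (hn : 1 ≤ n)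
    (hA1 : ∀ i ∈ Icc 1 n, 1 ≤ ‖A c i‖) (hD : ‖A c n‖ / n ≤ ‖Dp c n‖)
    (hz : ∀ j ∈ Ico 1 n, crit c j ≠ 0)
    (hs : ∀ j ∈ Ico 1 n, 100 * K * (n : ℝ) ^ 5 * ‖A c j‖ ≤ ‖crit c j‖ * ‖A c n‖ ^ 2) :
    Dp c n ≠ 0 ∧
    K * T c n * ∑ j ∈ Ico 1 n, ‖A c j‖ * T c j / ‖crit c j‖ ≤ ‖Dp c n‖ ^ 2 / 100 ∧
    ∑ j ∈ Ico 1 n, ‖A c j‖ / ‖crit c j‖ ≤ ‖A c n‖ ^ 2 / 100 := by
  have hnR : (1 : ℝ) ≤ n := by exact_mod_cast hn
  have hn0 : (0 : ℝ) < n := by linarith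
  have hAn : 1 ≤ ‖A c n‖ := hA1 n (mem_Icc.mpr ⟨hn, le_rfl⟩)
  have hDpos : 0 < ‖Dp c n‖ := lt_of_lt_of_le (by positivity) hD
  have hterm : ∀ j ∈ Ico 1 n, ‖A c j‖ / ‖crit c j‖ ≤ ‖A c n‖ ^ 2 / (100 * K * (n : ℝ) ^ 5) := by
    intro j hj
    have h1 := norm_pos_iff.mpr (hz j hj)
    rw [div_le_div_iff₀ h1 (by positivity)]
    have := hs j hj
    nlinarith
  have hcard : (((Ico 1 n).card : ℕ) : ℝ) ≤ n := by
    rw [Nat.card_Ico]
    exact_mod_cast Nat.sub_le n 1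
  set q : ℝ := ‖A c n‖ ^ 2 / (100 * K * (n : ℝ) ^ 5) with hq
  have hq0 : 0 ≤ q := by positivity
  have hsumC : ∑ j ∈ Ico 1 n, ‖A c j‖ / ‖crit c j‖ ≤ n * q := by
    calc ∑ j ∈ Ico 1 n, ‖A c j‖ / ‖crit c j‖ ≤ ∑ j ∈ Ico 1 n, q := sum_le_sum hterm
      _ = (Ico 1 n).card * q := by rw [sum_const, nsmul_eq_mul]
      _ ≤ n * q := by gcongr
  have hsumB : ∑ j ∈ Ico 1 n, ‖A c j‖ * T c j / ‖crit c j‖ ≤ n * (n * q) := by
    calc ∑ j ∈ Ico 1 n, ‖A c j‖ * T c j / ‖crit c j‖ ≤ ∑ j ∈ Ico 1 n, n * q := by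
          refine sum_le_sum fun j hj => ?_
          have hjn : j ≤ n := (mem_Ico.mp hj).2.le
          have h2 : T c j ≤ n := (T_le_of_one_le hA1 hjn).trans (by exact_mod_cast hjn)
          have h3 := T_nonneg' c j
          calc ‖A c j‖ * T c j / ‖crit c j‖ = T c j * (‖A c j‖ / ‖crit c j‖) := by ring
            _ ≤ n * q := by
              have := hterm j hj
              gcongr
      _ = (Ico 1 n).card * (n * q) := by rw [sum_const, nsmul_eq_mul]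
      _ ≤ n * (n * q) := by gcongr
  refine ⟨norm_pos_iff.mp hDpos, ?_, ?_⟩
  · have h2 : T c n ≤ n := T_le_of_one_le hA1 le_rfl
    have h3 := T_nonneg' c n
    have h0 : 0 ≤ ∑ j ∈ Ico 1 n, ‖A c j‖ * T c j / ‖crit c j‖ := by
      refine sum_nonneg fun j _ => ?_
      have := T_nonneg' c j
      positivity
    have h4 : K * T c n * ∑ j ∈ Ico 1 n, ‖A c j‖ * T c j / ‖crit c j‖ ≤ K * n * (n * (n * q)) := by
      gcongr
    have h5 : K * n * (n * (n * q)) = (‖A c n‖ / n) ^ 2 / 100 := by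
      rw [hq]
      have hK0 : K ≠ 0 := by positivity
      field_simp
    have h6 : (‖A c n‖ / n) ^ 2 ≤ ‖Dp c n‖ ^ 2 := by
      gcongr
    linarith
  · have h4 : (n : ℝ) * q ≤ ‖A c n‖ ^ 2 / 100 := by
      rw [hq]
      have h7 : (n : ℝ) * (‖A c n‖ ^ 2 / (100 * K * (n : ℝ) ^ 5))
          = ‖A c n‖ ^ 2 / 100 * (1 / (K * (n : ℝ) ^ 4)) := by
        have hK0 : K ≠ 0 := by positivity
        field_simp
      rw [h7]
      have h8 : 1 / (K * (n : ℝ) ^ 4) ≤ 1 := by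
        rw [div_le_one (by positivity)]
        have : (1 : ℝ) ≤ (n : ℝ) ^ 4 := one_le_pow₀ hnR
        nlinarith
      have h9 : 0 ≤ ‖A c n‖ ^ 2 / 100 := by positivity
      nlinarith
    linarith

end Pool.Agent.H10.MB
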